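import Mathlib
import Pool.Agent.helper92.ISO.SpecC

/-!
# Row UNP of project ISO (MP_069684_lc): the bound for pruning is uniform
-/

set_option autoImplicit false

open Filter Topology

namespace Pool.Agent.ISO

open Pool.Agent.PB

theorem UNP_mono (hCIR : CIR_stmt) {n w : ℕ} {f : BF (n + w)} {m κ : ℕ} {p : ℝ} {B B' : ℕ} (hB : B ≤ B')
    (h : PruneAt m κ p B f) : PruneAt m κ p B' f := by
  obtain ⟨k, W, h1, h2, h3, h4, h5⟩ := h
  exact ⟨k, W, h1, h2.trans hB, fun i => hCIR.2.2.1 _ _ _ _ (h3 i) hB, h4, h5⟩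

open Classical in
/-- the least size of a pruning -/
noncomputable def UNP_phi {n w : ℕ} (m κ : ℕ) (p : ℝ) (f : BF (n + w)) : WithTop ℕ :=
  if h : ∃ B : ℕ, PruneAt m κ p B f then ((Nat.find h : ℕ) : WithTop ℕ) else ⊤

theorem UNP_of_le (hCIR : CIR_stmt) {n w : ℕ} {f : BF (n + w)} {m κ : ℕ} {p : ℝ} {B : ℕ}
    (h : UNP_phi m κ p f ≤ (B : WithTop ℕ)) : PruneAt m κ p B f := by
  classical
  unfold UNP_phi at h
  split_ifs at h with h1
  · exact UNP_mono hCIR (by exact_mod_cast h) (Nat.find_spec h1)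
  · exact absurd (top_le_iff.1 h) (WithTop.coe_ne_top)

theorem UNP_le {n w : ℕ} {f : BF (n + w)} {m κ : ℕ} {p : ℝ} {B : ℕ}
    (h : PruneAt m κ p B f) : UNP_phi m κ p f ≤ (B : WithTop ℕ) := by
  classical
  have h1 : ∃ B : ℕ, PruneAt m κ p B f := ⟨B, h⟩
  unfold UNP_phi
  rw [dif_pos h1]
  exact_mod_cast Nat.find_min' h1 h

theorem UNP_proof (hCIR : CIR_stmt) : UNP_stmt := by
  classical
  intro m κ p hall c
  have hmax : ∀ n : ℕ, ∃ (w : ℕ) (f : BF (n + w)), w ≤ n ^ c + c ∧ Size std f (n ^ c + c) ∧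
      ∀ (w' : ℕ) (g : BF (n + w')), w' ≤ n ^ c + c → Size std g (n ^ c + c) →
        ∀ B : ℕ, PruneAt (m n) (κ n) (p n) B f → PruneAt (m n) (κ n) (p n) B g := by
    intro n
    have hfin : ({x : Σ w : Fin (n ^ c + c + 1), BF (n + w) | Size std x.2 (n ^ c + c)}).Finite := by
      have : ∀ w : Fin (n ^ c + c + 1), Finite (BF (n + w)) := fun w => by
        unfold BF
        infer_instance
      exact Set.toFinite _
    have hne : ({x : Σ w : Fin (n ^ c + c + 1), BF (n + w) | Size std x.2 (n ^ c + c)}).Nonempty := by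
      refine ⟨⟨⟨0, by omega⟩, fun _ => false⟩, ?_⟩
      have h1 : 1 ≤ n ^ c + c := by
        rcases Nat.eq_zero_or_pos c with h | h
        · subst h
          simp
        · omega
      exact hCIR.2.2.1 _ _ _ _ (hCIR.2.1 _ false) h1
    obtain ⟨a, ha, hmaxa⟩ := Set.exists_max_image _ (fun x => UNP_phi (m n) (κ n) (p n) x.2) hfin hne
    refine ⟨a.1, a.2, by have := a.1.2; omega, ha, ?_⟩
    intro w' g hw' hg B hB
    have h1 := hmaxa ⟨⟨w', by omega⟩, g⟩ hg
    exact UNP_of_le hCIR (h1.trans (UNP_le hB))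
  choose w V hw hV hV2 using hmax
  obtain ⟨c', hc'⟩ := hall w V c fun n => ⟨hw n, hV n⟩
  exact ⟨c', fun n w' g hw' hg => hV2 n w' g hw' hg _ (hc' n)⟩

end Pool.Agent.ISO
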